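import Mathlib

/-!
# The Golomb ruler `{0,1,4,10,18,23,25}` is in no affine image of a Bose set
-/

namespace Pool.Agent.Results.MP_cb32b9_nt.NoBoseRuler

open Finset

/-- The Bose set `{a : θ ^ a = θ + v for some v ∈ F}` in `ZMod (q ^ 2 - 1)`, where `q = |F|` and
`θ` is a unit of the quadratic extension `K`. -/
def Bose (F K : Type) [Field F] [Fintype F] [Field K] [Algebra F K] (θ : Kˣ) :
    Set (ZMod (Fintype.card F ^ 2 - 1)) :=
  {a | ∃ v : F, ((θ ^ a.val : Kˣ) : K) = (θ : K) + algebraMap F K v}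

/-- The ruler `T`. -/
def T : Finset ℕ := {0, 1, 4, 10, 18, 23, 25}

/-- The coefficient of `γ` in `1 + γ + ⋯ + γ ^ (t - 1)` when `γ ^ 2 = a γ - b`. -/
def hs {F : Type} [Field F] (a b : F) : ℕ → F
  | 0 => 0
  | 1 => 0
  | (t + 2) => a * hs a b (t + 1) + 1 - b * hs a b t

lemma hs_zero {F : Type} [Field F] (a b : F) : hs a b 0 = 0 := rfl
lemma hs_one {F : Type} [Field F] (a b : F) : hs a b 1 = 0 := rfl

/-- The geometric sums in terms of `γ`. -/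
lemma geom {F K : Type} [Field F] [Field K] [Algebra F K] {γ : K} {a b : F}
    (hγ : γ ^ 2 = algebraMap F K a * γ - algebraMap F K b) (t : ℕ) :
    ∑ j ∈ range (t + 1), γ ^ j =
      algebraMap F K (hs a b (t + 1)) * γ + algebraMap F K (1 - b * hs a b t) := by
  induction t with
  | zero => simp [hs]
  | succ t ih =>
    have h1 : ∑ j ∈ range (t + 1 + 1), γ ^ j = γ * ∑ j ∈ range (t + 1), γ ^ j + 1 := by
      rw [Finset.mul_sum, Finset.sum_range_succ' (fun j => γ ^ j) (t + 1)]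
      simp [pow_succ']
    rw [h1, ih]
    have h2 : hs a b (t + 1 + 1) = a * hs a b (t + 1) + 1 - b * hs a b t := rfl
    rw [h2]
    simp only [map_sub, map_add, map_mul, map_one]
    linear_combination (algebraMap F K (hs a b (t + 1))) * hγ

/-- The algebraic core: the conditions at `4, 10, 23, 25` are incompatible in every field. -/
lemma core {F : Type} [Field F] (a b : F) (h4 : hs a b 4 = 0) (h10 : hs a b 10 = 0)
    (h23 : hs a b 23 = 0) (h25 : hs a b 25 = 0) : False := by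
  have hb : b = a ^ 2 + a + 1 := by
    have h : hs a b 4 = a * (a * (a * 0 + 1 - b * 0) + 1 - b * 0) + 1 - b * (a * 0 + 1 - b * 0) :=
      rfl
    rw [h] at h4
    linear_combination -h4
  subst hb
  have e2 : hs a (a ^ 2 + a + 1) 2 = 1 := by
    show a * hs a (a ^ 2 + a + 1) 1 + 1 - (a ^ 2 + a + 1) * hs a (a ^ 2 + a + 1) 0 = _
    rw [hs_one, hs_zero]; ring
  have e3 : hs a (a ^ 2 + a + 1) 3 = 1 + a := by
    show a * hs a (a ^ 2 + a + 1) 2 + 1 - (a ^ 2 + a + 1) * hs a (a ^ 2 + a + 1) 1 = _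
    rw [e2, hs_one]; ring
  have e4 : hs a (a ^ 2 + a + 1) 4 = 0 := by
    show a * hs a (a ^ 2 + a + 1) 3 + 1 - (a ^ 2 + a + 1) * hs a (a ^ 2 + a + 1) 2 = _
    rw [e3, e2]; ring
  have e5 : hs a (a ^ 2 + a + 1) 5 = -2 * a - 2 * a ^ 2 - a ^ 3 := by
    show a * hs a (a ^ 2 + a + 1) 4 + 1 - (a ^ 2 + a + 1) * hs a (a ^ 2 + a + 1) 3 = _
    rw [e4, e3]; ring
  have e6 : hs a (a ^ 2 + a + 1) 6 = 1 - 2 * a ^ 2 - 2 * a ^ 3 - a ^ 4 := by
    show a * hs a (a ^ 2 + a + 1) 5 + 1 - (a ^ 2 + a + 1) * hs a (a ^ 2 + a + 1) 4 = _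
    rw [e5, e4]; ring
  have e7 : hs a (a ^ 2 + a + 1) 7 = 1 + 3 * a + 4 * a ^ 2 + 3 * a ^ 3 + a ^ 4 := by
    show a * hs a (a ^ 2 + a + 1) 6 + 1 - (a ^ 2 + a + 1) * hs a (a ^ 2 + a + 1) 5 = _
    rw [e6, e5]; ring
  have e8 : hs a (a ^ 2 + a + 1) 8 = 4 * a ^ 2 + 8 * a ^ 3 + 8 * a ^ 4 + 4 * a ^ 5 + a ^ 6 := by
    show a * hs a (a ^ 2 + a + 1) 7 + 1 - (a ^ 2 + a + 1) * hs a (a ^ 2 + a + 1) 6 = _
    rw [e7, e6]; ring
  have e9 : hs a (a ^ 2 + a + 1) 9 = -4 * a - 8 * a ^ 2 - 6 * a ^ 3 + 4 * a ^ 5 + 3 * a ^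
      6 + a ^ 7 := by
    show a * hs a (a ^ 2 + a + 1) 8 + 1 - (a ^ 2 + a + 1) * hs a (a ^ 2 + a + 1) 7 = _
    rw [e8, e7]; ring
  have e10 : hs a (a ^ 2 + a + 1) 10 = 1 - 8 * a ^ 2 - 20 * a ^ 3 - 26 * a ^ 4 - 20 * a ^
      5 - 9 * a ^ 6 - 2 * a ^ 7 := by
    show a * hs a (a ^ 2 + a + 1) 9 + 1 - (a ^ 2 + a + 1) * hs a (a ^ 2 + a + 1) 8 = _
    rw [e9, e8]; ring
  have e11 : hs a (a ^ 2 + a + 1) 11 = 1 + 5 * a + 12 * a ^ 2 + 10 * a ^ 3 - 6 * a ^ 4 -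
      24 * a ^ 5 - 27 * a ^ 6 - 17 * a ^ 7 - 6 * a ^ 8 - a ^ 9 := by
    show a * hs a (a ^ 2 + a + 1) 10 + 1 - (a ^ 2 + a + 1) * hs a (a ^ 2 + a + 1) 9 = _
    rw [e10, e9]; ring
  have e12 : hs a (a ^ 2 + a + 1) 12 = 12 * a ^ 2 + 40 * a ^ 3 + 64 * a ^ 4 + 60 * a ^ 5 +
      31 * a ^ 6 + 4 * a ^ 7 - 6 * a ^ 8 - 4 * a ^ 9 - a ^ 10 := by
    show a * hs a (a ^ 2 + a + 1) 11 + 1 - (a ^ 2 + a + 1) * hs a (a ^ 2 + a + 1) 10 = _
    rw [e11, e10]; ring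
  have e13 : hs a (a ^ 2 + a + 1) 13 = -6 * a - 18 * a ^ 2 - 15 * a ^ 3 + 24 * a ^ 4 + 84
      * a ^ 5 + 117 * a ^ 6 + 99 * a ^ 7 + 54 * a ^ 8 + 18 * a ^ 9 + 3 * a ^ 10 := by
    show a * hs a (a ^ 2 + a + 1) 12 + 1 - (a ^ 2 + a + 1) * hs a (a ^ 2 + a + 1) 11 = _
    rw [e12, e11]; ring
  have e14 : hs a (a ^ 2 + a + 1) 14 = 1 - 18 * a ^ 2 - 70 * a ^ 3 - 131 * a ^ 4 - 140 * a
      ^ 5 - 71 * a ^ 6 + 22 * a ^ 7 + 70 * a ^ 8 + 60 * a ^ 9 + 29 * a ^ 10 + 8 * a ^ 11 +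
      a ^ 12 := by
    show a * hs a (a ^ 2 + a + 1) 13 + 1 - (a ^ 2 + a + 1) * hs a (a ^ 2 + a + 1) 12 = _
    rw [e13, e12]; ring
  have e15 : hs a (a ^ 2 + a + 1) 15 = 1 + 7 * a + 24 * a ^ 2 + 21 * a ^ 3 - 61 * a ^ 4 -
      224 * a ^ 5 - 365 * a ^ 6 - 371 * a ^ 7 - 248 * a ^ 8 - 101 * a ^ 9 - 15 * a ^ 10 +
      8 * a ^ 11 + 5 * a ^ 12 + a ^ 13 := by
    show a * hs a (a ^ 2 + a + 1) 14 + 1 - (a ^ 2 + a + 1) * hs a (a ^ 2 + a + 1) 13 = _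
    rw [e14, e13]; ring
  have e16 : hs a (a ^ 2 + a + 1) 16 = 24 * a ^ 2 + 112 * a ^ 3 + 240 * a ^ 4 + 280 * a ^
      5 + 118 * a ^ 6 - 176 * a ^ 7 - 392 * a ^ 8 - 400 * a ^ 9 - 260 * a ^ 10 - 112 * a ^
      11 - 30 * a ^ 12 - 4 * a ^ 13 := by
    show a * hs a (a ^ 2 + a + 1) 15 + 1 - (a ^ 2 + a + 1) * hs a (a ^ 2 + a + 1) 14 = _
    rw [e15, e14]; ring
  have e17 : hs a (a ^ 2 + a + 1) 17 = -8 * a - 32 * a ^ 2 - 28 * a ^ 3 + 128 * a ^ 4 +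
      504 * a ^ 5 + 930 * a ^ 6 + 1078 * a ^ 7 + 808 * a ^ 8 + 328 * a ^ 9 - 36 * a ^ 10 -
      152 * a ^ 11 - 110 * a ^ 12 - 44 * a ^ 13 - 10 * a ^ 14 - a ^ 15 := by
    show a * hs a (a ^ 2 + a + 1) 16 + 1 - (a ^ 2 + a + 1) * hs a (a ^ 2 + a + 1) 15 = _
    rw [e16, e15]; ring
  have e18 : hs a (a ^ 2 + a + 1) 18 = 1 - 32 * a ^ 2 - 168 * a ^ 3 - 404 * a ^ 4 - 504 *
      a ^ 5 - 134 * a ^ 6 + 708 * a ^ 7 + 1528 * a ^ 8 + 1776 * a ^ 9 + 1380 * a ^ 10 +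
      736 * a ^ 11 + 250 * a ^ 12 + 36 * a ^ 13 - 10 * a ^ 14 - 6 * a ^ 15 - a ^ 16 := by
    show a * hs a (a ^ 2 + a + 1) 17 + 1 - (a ^ 2 + a + 1) * hs a (a ^ 2 + a + 1) 16 = _
    rw [e17, e16]; ring
  have e19 : hs a (a ^ 2 + a + 1) 19 = 1 + 9 * a + 40 * a ^ 2 + 36 * a ^ 3 - 236 * a ^ 4 -
      1008 * a ^ 5 - 2066 * a ^ 6 - 2646 * a ^ 7 - 2108 * a ^ 8 - 686 * a ^ 9 + 676 * a ^
      10 + 1240 * a ^ 11 + 1034 * a ^ 12 + 556 * a ^ 13 + 200 * a ^ 14 + 45 * a ^ 15 + 5 *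
      a ^ 16 := by
    show a * hs a (a ^ 2 + a + 1) 18 + 1 - (a ^ 2 + a + 1) * hs a (a ^ 2 + a + 1) 17 = _
    rw [e18, e17]; ring
  have e20 : hs a (a ^ 2 + a + 1) 20 = 40 * a ^ 2 + 240 * a ^ 3 + 640 * a ^ 4 + 840 * a ^
      5 + 34 * a ^ 6 - 2136 * a ^ 7 - 4748 * a ^ 8 - 6120 * a ^ 9 - 5370 * a ^ 10 - 3216 *
      a ^ 11 - 1126 * a ^ 12 + 12 * a ^ 13 + 280 * a ^ 14 + 180 * a ^ 15 + 62 * a ^ 16 +
      12 * a ^ 17 + a ^ 18 := by
    show a * hs a (a ^ 2 + a + 1) 19 + 1 - (a ^ 2 + a + 1) * hs a (a ^ 2 + a + 1) 18 = _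
    rw [e19, e18]; ring
  have e21 : hs a (a ^ 2 + a + 1) 21 = -10 * a - 50 * a ^ 2 - 45 * a ^ 3 + 400 * a ^ 4 +
      1848 * a ^ 5 + 4150 * a ^ 6 + 5754 * a ^ 7 + 4684 * a ^ 8 + 692 * a ^ 9 - 4002 * a ^
      10 - 6600 * a ^ 11 - 6166 * a ^ 12 - 3956 * a ^ 13 - 1778 * a ^ 14 - 521 * a ^ 15 -
      70 * a ^ 16 + 12 * a ^ 17 + 7 * a ^ 18 + a ^ 19 := by
    show a * hs a (a ^ 2 + a + 1) 20 + 1 - (a ^ 2 + a + 1) * hs a (a ^ 2 + a + 1) 19 = _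
    rw [e20, e19]; ring
  have e22 : hs a (a ^ 2 + a + 1) 22 = 1 - 50 * a ^ 2 - 330 * a ^ 3 - 965 * a ^ 4 - 1320 *
      a ^ 5 + 334 * a ^ 6 + 5412 * a ^ 7 + 12604 * a ^ 8 + 17688 * a ^ 9 + 16930 * a ^ 10
      + 10704 * a ^ 11 + 3112 * a ^ 12 - 1836 * a ^ 13 - 3122 * a ^ 14 - 2250 * a ^ 15 -
      1043 * a ^ 16 - 324 * a ^ 17 - 63 * a ^ 18 - 6 * a ^ 19 := by
    show a * hs a (a ^ 2 + a + 1) 21 + 1 - (a ^ 2 + a + 1) * hs a (a ^ 2 + a + 1) 20 = _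
    rw [e21, e20]; ring
  have e23 : hs a (a ^ 2 + a + 1) 23 = 1 + 11 * a + 60 * a ^ 2 + 55 * a ^ 3 - 635 * a ^ 4
      - 3168 * a ^ 5 - 7718 * a ^ 6 - 11418 * a ^ 7 - 9176 * a ^ 8 + 1474 * a ^ 9 + 16314
      * a ^ 10 + 26840 * a ^ 11 + 27472 * a ^ 12 + 19834 * a ^ 13 + 10064 * a ^ 14 + 3133
      * a ^ 15 + 119 * a ^ 16 - 464 * a ^ 17 - 273 * a ^ 18 - 83 * a ^ 19 - 14 * a ^ 20 -
      a ^ 21 := by
    show a * hs a (a ^ 2 + a + 1) 22 + 1 - (a ^ 2 + a + 1) * hs a (a ^ 2 + a + 1) 21 = _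
    rw [e22, e21]; ring
  have e24 : hs a (a ^ 2 + a + 1) 24 = 60 * a ^ 2 + 440 * a ^ 3 + 1400 * a ^ 4 + 1980 * a
      ^ 5 - 1217 * a ^ 6 - 12144 * a ^ 7 - 29768 * a ^ 8 - 44880 * a ^ 9 - 45748 * a ^ 10
      - 29008 * a ^ 11 - 3906 * a ^ 12 + 15492 * a ^ 13 + 21680 * a ^ 14 + 17272 * a ^ 15
      + 9548 * a ^ 16 + 3736 * a ^ 17 + 966 * a ^ 18 + 120 * a ^ 19 - 14 * a ^ 20 - 8 * a
      ^ 21 - a ^ 22 := by
    show a * hs a (a ^ 2 + a + 1) 23 + 1 - (a ^ 2 + a + 1) * hs a (a ^ 2 + a + 1) 22 = _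
    rw [e23, e22]; ring
  have e25 : hs a (a ^ 2 + a + 1) 25 = -12 * a - 72 * a ^ 2 - 66 * a ^ 3 + 960 * a ^ 4 +
      5148 * a ^ 5 + 13501 * a ^ 6 + 21087 * a ^ 7 + 16168 * a ^ 8 - 10648 * a ^ 9 - 53492
      * a ^ 10 - 90376 * a ^ 11 - 99634 * a ^ 12 - 78052 * a ^ 13 - 41878 * a ^ 14 - 11351
      * a ^ 15 + 3956 * a ^ 16 + 6760 * a ^ 17 + 4354 * a ^ 18 + 1786 * a ^ 19 + 490 * a ^
      20 + 84 * a ^ 21 + 7 * a ^ 22 := by
    show a * hs a (a ^ 2 + a + 1) 24 + 1 - (a ^ 2 + a + 1) * hs a (a ^ 2 + a + 1) 23 = _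
    rw [e24, e23]; ring
  rw [e10] at h10
  rw [e23] at h23
  rw [e25] at h25
  clear e2 e3 e4 e5 e6 e7 e8 e9 e10 e11 e12 e13 e14 e15 e16 e17 e18 e19 e20 e21 e22 e23 e24 e25 h4
  have h13 : (13 : F) = 0 := by
    linear_combination
      (51 + 456 * a + 2846 * a ^ 2 + 5605 * a ^ 3 - 11317 * a ^ 4 - 85316 * a ^ 5 - 213442 * a
        ^ 6 - 291693 * a ^ 7 - 174350 * a ^ 8 + 153009 * a ^ 9 + 503787 * a ^ 10 + 648904 * a ^
        11 + 532332 * a ^ 12 + 291423 * a ^ 13 + 93762 * a ^ 14 + 2587 * a ^ 15 - 14505 * a ^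
        16 - 7870 * a ^ 17 - 2095 * a ^ 18 - 278 * a ^ 19 - 14 * a ^ 20) * h10 + (-38 - 38 * a
        + 260 * a ^ 2 + 573 * a ^ 3 + 588 * a ^ 4 + 290 * a ^ 5 + 28 * a ^ 6) * h23
  have h1 : (1 : F) = 0 := by
    linear_combination
      (5 + 3 * a + 2 * a ^ 2 + 2 * a ^ 4 + 2 * a ^ 5 + 4 * a ^ 6 + 6 * a ^ 7 - 4 * a ^ 8 + 3 *
        a ^ 9 + 6 * a ^ 10 - 2 * a ^ 11 - 2 * a ^ 12 - 3 * a ^ 13 + 2 * a ^ 14 + 3 * a ^ 15 + 4
        * a ^ 16 - 2 * a ^ 17 - a ^ 18 - 4 * a ^ 19 - 6 * a ^ 20 + 5 * a ^ 21 - 4 * a ^ 22 + 3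
        * a ^ 23 + 4 * a ^ 24 - 6 * a ^ 25 + 2 * a ^ 26 - 3 * a ^ 27 + 6 * a ^ 28 + a ^ 29 + 3
        * a ^ 31 + 3 * a ^ 32 - 2 * a ^ 33 + 2 * a ^ 34 - 4 * a ^ 35 - 2 * a ^ 36 + 4 * a ^ 37
        + 4 * a ^ 38) * h10 + (-4 - 6 * a + 4 * a ^ 2 - 4 * a ^ 3 - 3 * a ^ 4 - 4 * a ^ 5 + 2 *
        a ^ 6 + 5 * a ^ 7 - a ^ 8 + 4 * a ^ 9 + 2 * a ^ 10 + 4 * a ^ 11 + 5 * a ^ 12 - 6 * a ^
        13 - a ^ 14 - 3 * a ^ 15 + 5 * a ^ 16 - 2 * a ^ 17 - 3 * a ^ 18 - 6 * a ^ 19 + 4 * a ^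
        20 + 6 * a ^ 21 + 3 * a ^ 22 + 3 * a ^ 23 + 5 * a ^ 24) * h23 + (-5 + 6 * a - a ^ 2) *
        h25 - (a - 4 * a ^ 2 - 58 * a ^ 3 - 225 * a ^ 4 - 285 * a ^ 5 + 704 * a ^ 6 + 3982 * a
        ^ 7 + 9300 * a ^ 8 + 13519 * a ^ 9 + 12065 * a ^ 10 + 2658 * a ^ 11 - 12260 * a ^ 12 -
        26732 * a ^ 13 - 34785 * a ^ 14 - 33622 * a ^ 15 - 24789 * a ^ 16 - 12575 * a ^ 17 -
        544 * a ^ 18 + 10489 * a ^ 19 + 20480 * a ^ 20 + 26925 * a ^ 21 + 25873 * a ^ 22 +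
        17120 * a ^ 23 + 6329 * a ^ 24 - 398 * a ^ 25 - 3278 * a ^ 26 - 7652 * a ^ 27 - 15821 *
        a ^ 28 - 22632 * a ^ 29 - 20577 * a ^ 30 - 7886 * a ^ 31 + 9655 * a ^ 32 + 23807 * a ^
        33 + 29561 * a ^ 34 + 26903 * a ^ 35 + 19224 * a ^ 36 + 10730 * a ^ 37 + 4369 * a ^ 38
        + 987 * a ^ 39 - 166 * a ^ 40 - 276 * a ^ 41 - 140 * a ^ 42 - 44 * a ^ 43 - 9 * a ^ 44
        - a ^ 45) * h13
  exact one_ne_zero h1

/-- Powers of a unit indexed by residues modulo the order of the group. -/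
lemma pow_val_add {G : Type} [Group G] (θ : G) {M : ℕ} [NeZero M]
    (hM : θ ^ M = 1) (x y : ZMod M) :
    θ ^ (x + y).val = θ ^ x.val * θ ^ y.val := by
  have h1 : θ ^ (x.val + y.val) = θ ^ ((x.val + y.val) % M) := by
    have h2 := Nat.mod_add_div (x.val + y.val) M
    have h3 : θ ^ ((x.val + y.val) % M + M * ((x.val + y.val) / M)) =
        θ ^ ((x.val + y.val) % M) := by
      rw [pow_add, pow_mul, hM, one_pow, mul_one]
    rw [h2] at h3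
    exact h3
  rw [← pow_add, ZMod.val_add, h1]

lemma pow_val_mul {G : Type} [Group G] (θ : G) {M : ℕ} [NeZero M]
    (hM : θ ^ M = 1) (x : ZMod M) (t : ℕ) :
    θ ^ (x * (t : ZMod M)).val = (θ ^ x.val) ^ t := by
  induction t with
  | zero => simp
  | succ t ih =>
    rw [Nat.cast_succ, mul_add, mul_one, pow_val_add θ hM, ih, pow_succ]

/-- The main argument, with the modulus as a parameter. -/
lemma main (F K : Type) [Field F] [Fintype F] [Field K] [Fintype K] [Algebra F K]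
    (hcard : Fintype.card K = Fintype.card F ^ 2) (θ : Kˣ)
    (hθ : ∀ x : Kˣ, x ∈ Subgroup.zpowers θ) (M : ℕ) (hMdef : M = Fintype.card F ^ 2 - 1)
    (m : ℤ) (s : ZMod M)
    (hget : ∀ t ∈ T, ∃ a : ZMod M, (∃ v : F, ((θ ^ a.val : Kˣ) : K) = (θ : K) + algebraMap F K v) ∧
      (m : ZMod M) * a + s = (t : ZMod M)) : False := by
  classical
  have hq2 : 2 ≤ Fintype.card F := Fintype.one_lt_card
  have hqq : 4 ≤ Fintype.card F ^ 2 := by nlinarith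
  have hM3 : 3 ≤ M := by omega
  have : NeZero M := ⟨by omega⟩
  have : Fact (1 < M) := ⟨by omega⟩
  have hcardU : Fintype.card Kˣ = M := by
    rw [Fintype.card_units, hcard, hMdef]
  have hθM : θ ^ M = 1 := by rw [← hcardU]; exact pow_card_eq_one
  -- `θ` is not in `F`
  have hθF : ∀ v : F, (θ : K) ≠ algebraMap F K v := by
    intro v hv
    have hsub : ∀ x : K, ∃ w : F, algebraMap F K w = x := by
      intro x
      by_cases hx : x = 0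
      · exact ⟨0, by rw [hx, map_zero]⟩
      · obtain ⟨k, hk⟩ := Subgroup.mem_zpowers_iff.mp (hθ (Units.mk0 x hx))
        refine ⟨v ^ k, ?_⟩
        rw [map_zpow₀, ← hv, ← Units.val_zpow_eq_zpow_val, hk, Units.val_mk0]
    have h1 : Fintype.card K ≤ Fintype.card F :=
      Fintype.card_le_of_surjective (algebraMap F K) hsub
    rw [hcard] at h1
    nlinarith
  -- extract the exponents
  obtain ⟨a0, ha0, he0⟩ := hget 0 (by decide)
  obtain ⟨a1, ha1, he1⟩ := hget 1 (by decide)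
  obtain ⟨v0, hv0⟩ := ha0
  set n : ZMod M := a1 - a0 with hn
  have hmn : (m : ZMod M) * n = 1 := by
    rw [hn, mul_sub]
    push_cast at he0 he1
    linear_combination he1 - he0
  have hsol : ∀ (a : ZMod M) (t : ℕ), (m : ZMod M) * a + s = (t : ZMod M) →
      a = n * (t : ZMod M) + a0 := by
    intro a t h
    have h0 : (m : ZMod M) * a0 + s = 0 := by simpa using he0
    have h1 : (m : ZMod M) * (a - a0) = (t : ZMod M) := by linear_combination h - h0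
    have h2 : n * ((m : ZMod M) * (a - a0)) = n * (t : ZMod M) := by rw [h1]
    have h3 : n * ((m : ZMod M) * (a - a0)) = a - a0 := by
      linear_combination (a - a0) * hmn
    linear_combination h3.symm + h2
  set γ : Kˣ := θ ^ n.val with hγdef
  set c : Kˣ := θ ^ a0.val with hcdef
  have hpt : ∀ t ∈ T, ∃ v : F, (c : K) * (γ : K) ^ t = (θ : K) + algebraMap F K v := by
    intro t ht
    obtain ⟨a, ⟨v, hv⟩, he⟩ := hget t ht
    refine ⟨v, ?_⟩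
    rw [← hv, hsol a t he, pow_val_add θ hθM, pow_val_mul θ hθM]
    push_cast
    rw [hγdef, hcdef]
    push_cast
    ring
  have hc0 : (c : K) = (θ : K) + algebraMap F K v0 := hv0
  have hcne : (c : K) ≠ 0 := c.ne_zero
  -- `γ` is not one and not in `F`
  obtain ⟨v1, hv1⟩ := hpt 1 (by decide)
  rw [pow_one] at hv1
  have hγ1 : (γ : K) ≠ 1 := by
    intro h
    have h1 : θ ^ n.val = 1 := Units.ext (by rw [Units.val_one, ← h])
    have h2 : orderOf θ = M := by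
      rw [← hcardU, ← Nat.card_eq_fintype_card]
      exact orderOf_eq_card_of_forall_mem_zpowers hθ
    have h3' := orderOf_dvd_of_pow_eq_one h1
    have h3 : M ∣ n.val := (dvd_of_eq h2.symm).trans h3'
    have h4 : n.val = 0 := Nat.eq_zero_of_dvd_of_lt h3 (ZMod.val_lt n)
    have h5 : n = 0 := (ZMod.val_eq_zero n).mp h4
    rw [h5, mul_zero] at hmn
    exact zero_ne_one hmn
  set d : F := v1 - v0 with hd
  have hd1 : (c : K) * ((γ : K) - 1) = algebraMap F K d := by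
    rw [hd, map_sub]
    linear_combination hv1 - hc0
  have hdne : d ≠ 0 := by
    intro h
    rw [h, map_zero] at hd1
    rcases mul_eq_zero.mp hd1 with h1 | h1
    · exact hcne h1
    · exact hγ1 (sub_eq_zero.mp h1)
  have hγF : ∀ g : F, (γ : K) ≠ algebraMap F K g := by
    intro g hg
    have hg1 : g - 1 ≠ 0 := by
      intro h
      apply hγ1
      rw [hg, sub_eq_zero.mp h, map_one]
    apply hθF (d / (g - 1) - v0)
    have h1 : (c : K) = algebraMap F K (d / (g - 1)) := by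
      rw [map_div₀, eq_div_iff]
      · rw [map_sub, map_one, ← hg]
        exact hd1
      · rw [map_ne_zero]
        exact hg1
    rw [map_sub, ← h1, hc0]
    ring
  -- the quadratic equation of `γ`
  have hinj : Function.Injective (fun p : F × F =>
      algebraMap F K p.1 * (γ : K) + algebraMap F K p.2) := by
    rintro ⟨x, y⟩ ⟨x', y'⟩ h
    simp only at h
    have hx : x = x' := by
      by_contra hne
      have hne' : x - x' ≠ 0 := sub_ne_zero.mpr hne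
      apply hγF ((y' - y) / (x - x'))
      rw [map_div₀, eq_div_iff]
      · rw [map_sub, map_sub]
        linear_combination h
      · rw [map_ne_zero]
        exact hne'
    subst hx
    have hy : algebraMap F K y = algebraMap F K y' := by linear_combination h
    rw [(algebraMap F K).injective hy]
  have hsurj : Function.Surjective (fun p : F × F =>
      algebraMap F K p.1 * (γ : K) + algebraMap F K p.2) := by
    refine ((Fintype.bijective_iff_injective_and_card _).mpr ⟨hinj, ?_⟩).2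
    rw [Fintype.card_prod, hcard, sq]
  obtain ⟨⟨a, b'⟩, hab⟩ := hsurj ((γ : K) ^ 2)
  simp only at hab
  have hγ2 : (γ : K) ^ 2 = algebraMap F K a * (γ : K) - algebraMap F K (-b') := by
    rw [map_neg, ← hab]
    ring
  -- geometric sums are in `F`
  have hvan : ∀ t : ℕ, t + 1 ∈ T → hs a (-b') (t + 1) = 0 := by
    intro t ht
    obtain ⟨v, hv⟩ := hpt (t + 1) ht
    have h1 : (∑ j ∈ range (t + 1), (γ : K) ^ j) * ((γ : K) - 1) = (γ : K) ^ (t + 1) - 1 :=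
      geom_sum_mul _ _
    have h2 : (∑ j ∈ range (t + 1), (γ : K) ^ j) * algebraMap F K d =
        algebraMap F K (v - v0) := by
      rw [← hd1, map_sub]
      calc (∑ j ∈ range (t + 1), (γ : K) ^ j) * ((c : K) * ((γ : K) - 1))
          = (c : K) * ((∑ j ∈ range (t + 1), (γ : K) ^ j) * ((γ : K) - 1)) := by ring
        _ = (c : K) * ((γ : K) ^ (t + 1) - 1) := by rw [h1]
        _ = algebraMap F K v - algebraMap F K v0 := by linear_combination hv - hc0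
    rw [geom hγ2 t] at h2
    by_contra hne
    have hne2 : hs a (-b') (t + 1) * d ≠ 0 := mul_ne_zero hne hdne
    apply hγF ((v - v0 - (1 - (-b') * hs a (-b') t) * d) / (hs a (-b') (t + 1) * d))
    rw [map_div₀, eq_div_iff]
    · simp only [map_sub, map_mul] at h2 ⊢
      linear_combination h2
    · rw [map_ne_zero]
      exact hne2
  exact core a (-b') (hvan 3 (by decide)) (hvan 9 (by decide)) (hvan 22 (by decide))
    (hvan 24 (by decide))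

/-- For all finite fields `F ⊆ K` with `|K| = |F| ^ 2`, every generator `θ` of the multiplicative
group of `K`, every integer `m` and every residue `s`, the ruler `T = {0,1,4,10,18,23,25}` is not
contained in `m * Bose + s` modulo `|F| ^ 2 - 1`. -/
theorem result (F K : Type) [Field F] [Fintype F] [Field K] [Fintype K] [Algebra F K]
    (hcard : Fintype.card K = Fintype.card F ^ 2) (θ : Kˣ)
    (hθ : ∀ x : Kˣ, x ∈ Subgroup.zpowers θ) (m : ℤ) (s : ZMod (Fintype.card F ^ 2 - 1)) :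
    ¬ (∀ t ∈ T, (t : ZMod (Fintype.card F ^ 2 - 1)) ∈
      (fun a : ZMod (Fintype.card F ^ 2 - 1) => (m : ZMod (Fintype.card F ^ 2 - 1)) * a + s) ''
        Bose F K θ) := by
  intro hT
  refine main F K hcard θ hθ (Fintype.card F ^ 2 - 1) rfl m s ?_
  intro t ht
  obtain ⟨a, ha, he⟩ := hT t ht
  exact ⟨a, ha, he⟩

end Pool.Agent.Results.MP_cb32b9_nt.NoBoseRuler
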